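import Mathlib
import Pool.Agent.H110Z.ZP.Defs
import Pool.Agent.H110Z.ZP.Main

open MvPolynomial Pool.Agent.H110Z.ZP

/-- Zilber–Pink in `Y(1)^n`, with empty atypical locus, for a whole congruence class of integral
complete intersections of each codimension `c` and each multidegree `D`. -/
theorem Pool.Agent.Results.MP_d83ecd_ag.APositiveProportion.result
    (n c : ℕ) (hc : c ≤ n) (D : Fin c → Fin n → ℕ) (hD : ∀ k i, 0 < D k i) :
    ∃ (M : ℕ) (R : Fin c → MvPolynomial (Fin n) ℤ), 0 < M ∧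
      (∀ k i, (R k).degreeOf i ≤ D k i) ∧
      ∀ F : Fin c → MvPolynomial (Fin n) ℤ, (∀ k i, (F k).degreeOf i ≤ D k i) →
        (∀ k α, (M : ℤ) ∣ coeff α (F k) - coeff α (R k)) →
        {x : Fin n → ℂ | ∀ k, aeval x (F k) = 0}.Nonempty ∧
        ∀ V, IsComponent V {x : Fin n → ℂ | ∀ k, aeval x (F k) = 0} →
          dim V = ((n - c : ℕ) : WithBot ℕ∞) ∧
          ∀ S W, IsSpecial S → ¬ IsAtypical W V S :=
  Pool.Agent.H110Z.ZP.main n c hc D hD
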